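import Pool.Agent.MWC.Defs
namespace Pool.Agent.MWC.H65
open Pool.Agent.MWC Pool.Agent.MWL Bit
set_option maxRecDepth 100000
theorem cR0a : chk false 1 1 [] [J 2, E] (J 2) [0,1] [(0,0,[2],[2])] [1,1] [1,1] [[1,1]] [[1,1]] [[1,1],[1,2],[0,2],[2,2]] [[1,1],[1,2],[0,2],[2,2]] = true := by decide +kernel
theorem cR0b : chk true 1 1 [] [J 2, G] (J 2) [0,1] [(0,0,[2],[2])] [1,1] [1,1] [[1,1]] [[1,1]] [[1,1],[2,1],[0,2],[2,2]] [[1,1],[2,1],[0,2],[2,2]] = true := by decide +kernel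
theorem cA1 : chk false 1 1 [] [G, J 2, E] G [0,1] [(1,1,[1,1],[2,2])] [0,2] [1,1] [[0,2]] [[1,1]] [[0,2],[1,2],[2,2]] [[1,1]] = true := by decide +kernel
theorem cA2 : chk false 2 2 [] [D 0, G, J 2, E, F] (D 0) [0,2] [(2,2,[0,1,1],[2,0,2])] [1,0,2] [0,1,1] [[1,0,2]] [[0,1,1]] [[1,0,2],[2,0,2]] [[0,1,1]] = true := by decide +kernel
theorem cA3 : chk false 3 3 [] [J 3, J 2, G, E] (J 3) [1,2,3] [(1,1,[1,1],[0,2])] [0,1,1,1] [1,0,0,1] [[0,1,1,1]] [[1,0,0,1]] [[0,1,1,1],[0,1,0,2],[0,2,0,2],[0,1,1,2],[0,1,2,2],[0,2,2,2]] [[1,0,0,1]] = true := by decide +kernel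
theorem cA4 : chk false 2 2 [] [J 3, J 2, E] (J 3) [0,1,2] [(1,1,[1,1],[0,2]),(1,1,[1,1],[1,2]),(1,1,[1,1],[2,2])] [1,1,1] [1,0,1] [[1,1,1]] [[1,0,1]] [[1,1,1],[0,0,2],[1,0,2],[2,0,2],[0,1,2],[1,1,2],[0,2,2],[1,2,2],[2,2,2]] [[1,0,1]] = true := by decide +kernel
theorem cB1 : chk true 1 1 [] [J 2, D 0] (J 2) [0,1] [(1,1,[2,1],[2,1])] [1,1] [1,1] [[1,1]] [[1,1]] [[1,1],[2,1]] [[1,1],[2,1]] = true := by decide +kernel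
theorem cB2 : chk true 1 1 [] [J 2, D 0, E] (J 2) [0,1] [(1,1,[2,1],[0,2])] [1,1] [0,2] [[1,1]] [[0,2]] [[1,1],[2,1]] [[0,2]] = true := by decide +kernel
theorem cB3 : chk true 2 2 [] [J 2, D 0, E] (J 2) [0,2] [(2,2,[2,0,1],[0,2,1])] [1,0,1] [0,1,1] [[1,0,1]] [[0,1,1]] [[1,0,1],[2,0,1]] [[0,1,1],[0,2,1]] = true := by decide +kernel
theorem cB4 : chk true 1 1 [] [D 0, J 2, G] (D 0) [0,1] [(1,1,[1,1],[2,2])] [2,1] [1,1] [[2,1]] [[1,1]] [[2,1],[0,2],[2,2]] [[1,1]] = true := by decide +kernel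
theorem cB5 : chk true 2 2 [] [D 0, J 2, G, E] (D 0) [1,2] [(1,1,[1,1],[0,2])] [0,2,1] [1,0,1] [[0,2,1]] [[1,0,1]] [[0,2,1],[0,2,2]] [[1,0,1]] = true := by decide +kernel
theorem cB6 : chk true 2 2 [] [E, J 2, D 0] E [0,1] [(1,1,[1,1],[2,1])] [0,2,1] [1,0,1] [[0,2,1]] [[1,0,1]] [[1,1,1],[2,1,1],[0,2,1],[2,2,1]] [[1,0,1]] = true := by decide +kernel
theorem cB7 : chk true 1 1 [] [E, J 2, G] E [0,1] [(1,1,[1,1],[2,1]),(1,1,[1,1],[2,2])] [0,2] [1,1] [[0,2]] [[1,1]] [[2,1],[0,2],[2,2]] [[1,1]] = true := by decide +kernel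
theorem cB8 : chk true 2 2 [] [J 3, J 2, D 0] (J 3) [0,1,2] [(1,1,[1,1],[2,1])] [1,1,1] [1,0,1] [[1,1,1]] [[1,0,1]] [[1,1,1],[2,1,1],[0,2,1],[2,2,1]] [[1,0,1]] = true := by decide +kernel
theorem cB9 : chk true 2 2 [] [J 3, J 2, G] (J 3) [0,1,2] [(1,1,[1,1],[2,1]),(1,1,[1,1],[2,2]),(1,1,[1,1],[0,2])] [1,1,1] [1,0,1] [[1,1,1]] [[1,0,1]] [[1,1,1],[0,0,2],[2,0,2],[0,2,2],[2,2,2],[0,2,1],[2,1,1],[2,2,1],[2,0,1]] [[1,0,1]] = true := by decide +kernel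
theorem cB10 : chk true 3 3 [] [J 3, J 2, G, E] (J 3) [1,2,3] [(1,1,[1,1],[0,2])] [0,1,1,1] [1,0,0,1] [[0,1,1,1]] [[1,0,0,1]] [[0,2,0,1],[0,1,1,1],[0,2,1,1],[0,2,2,1],[0,2,0,2],[0,2,2,2]] [[1,0,0,1]] = true := by decide +kernel
theorem cB11 : chk true 3 3 [] [J 3, J 2, D 0, E] (J 3) [1,2,3] [(2,2,[1,0,1],[0,2,1])] [0,1,1,1] [1,0,0,1] [[0,1,1,1]] [[1,0,0,1]] [[0,1,1,1],[0,2,1,1],[0,2,2,1]] [[1,0,0,1]] = true := by decide +kernel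
theorem cB12 : chk true 3 3 [] [J 3, J 2, D 0] (J 3) [0,1,3] [(2,2,[2,0,1],[0,1,1])] [1,1,0,1] [0,0,1,1] [[1,1,0,1]] [[0,0,1,1]] [[1,1,0,1],[2,1,0,1],[0,2,0,1],[2,2,0,1]] [[0,0,1,1]] = true := by decide +kernel
theorem cB13 : chk true 3 3 [] [D 1, D 0, E, F] (D 1) [0,2,3] [(3,3,[0,1,0,1],[2,0,2,1])] [2,0,1,1] [0,1,0,1] [[1,0,1,1],[2,0,1,1]] [[0,1,0,1]] [[1,0,1,1],[2,0,1,1],[2,0,2,1]] [[0,1,0,1]] = true := by decide +kernel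
theorem cB14 : chk true 2 2 [] [D 1, D 0, J 2] (D 1) [0,1,2] [(1,1,[1,1],[2,1])] [2,1,1] [0,1,1] [[1,1,1],[2,1,1]] [[0,1,1]] [[1,1,1],[2,1,1],[0,2,1],[2,2,1]] [[0,1,1]] = true := by decide +kernel
end Pool.Agent.MWC.H65
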