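import Pool.Agent.MWC.Stmts

/-!
# MWC, row MST: the master theorem of the clauses
-/

namespace Pool.Agent.MWC.H65M

open Pool.Agent.Helper14_MV Pool.Agent.Helper2_MV Pool.Agent.MVO Pool.Agent.MWL Pool.Agent.MWC

theorem pos65 {r : Bool} {n : ℕ} {R : FC} (h : LRr r n R) : 1 ≤ n := by
  cases r
  · exact h.pos
  · exact h.pos

theorem les65 {k : ℕ} {s t : List ℕ} : les k s t = true ↔ ∀ j ≤ k, rep s j ≤ rep t j := by
  unfold les
  simp only [List.all_eq_true, List.mem_range, Nat.ble_eq]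
  constructor
  · intro h j hj; exact h j (by omega)
  · intro h j hj; exact h j (by omega)

/-- the set of pairs of shapes -/
def TT (r : Bool) (k : ℕ) (C D : List (List ℕ)) : (ℕ → ℕ) → (ℕ → ℕ) → Prop :=
  fun c d => shp r k c ∈ C ∧ shp r k d ∈ D

theorem text65 (hS : ShfStmt) (r : Bool) (k : ℕ) (C D : List (List ℕ)) : TExt k (TT r k C D) := by
  intro a a' b b' ha hb h
  have e1 := (hS r k a).2.2.2.2.1 a' ha
  have e2 := (hS r k b).2.2.2.2.1 b' hb
  exact ⟨e1 ▸ h.1, e2 ▸ h.2⟩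

theorem lst65 (hS : ShfStmt) {r : Bool} {k i : ℕ} {C : List (List ℕ)} (hik : i ≤ k)
    (hl : lst k i C = true) {c : ℕ → ℕ} (hc : shp r k c ∈ C) :
    2 ≤ deg k c ∧ (sp k c).max = (i : WithBot ℕ) := by
  unfold lst at hl
  rw [List.all_eq_true] at hl
  have h := hl _ hc
  simp only [Bool.and_eq_true, Nat.ble_eq, Bool.not_eq_true', List.all_eq_true, List.mem_range,
    Bool.or_eq_true] at h
  obtain ⟨⟨h1, h2⟩, h3⟩ := h
  refine ⟨(hS r k c).2.1.2 h1, ?_⟩
  have ha := (hS r k c).1.2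
  rw [(hS r k c).2.2.2.2.2.2.2 i hik]
  constructor
  · intro h0
    have := (ha i hik).1.2 h0
    rw [this] at h2
    exact absurd h2 (by decide)
  · intro j hj hij
    rcases h3 j (by omega) with h | h
    · omega
    · exact (ha j hj).1.1 (Nat.eq_of_beq_eq_true h)

theorem tlast65 (hS : ShfStmt) {r : Bool} {k i : ℕ} {C D : List (List ℕ)} (hik : i ≤ k)
    (hC : lst k i C = true) (hD : lst k i D = true) : TLast k i (TT r k C D) := by
  intro a b h
  exact ⟨(lst65 hS hik hC h.1).1, (lst65 hS hik hD h.2).1, (lst65 hS hik hC h.1).2,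
    (lst65 hS hik hD h.2).2⟩

theorem bik65 (r : Bool) (κ : Bit) : bi r κ ≤ κ.k := by
  unfold bi
  cases r <;> cases κ <;> simp [Bit.k, Bit.i] <;> omega

theorem vls65 {r : Bool} {k : ℕ} {x : List ℕ} (h : x ∈ vls r k) :
    shp r k (rep x) = x ∧ 2 ≤ x.sum := by
  unfold vls at h
  simp only [List.mem_filter, Bool.and_eq_true, decide_eq_true_eq, Nat.ble_eq] at h
  exact h.2

theorem deg65 {k : ℕ} {a b : ℕ → ℕ} (h : ∀ j ≤ k, a j ≤ b j) : deg k a ≤ deg k b := by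
  unfold deg
  refine Finset.sum_le_sum ?_
  intro j hj
  exact h j (by have := Finset.mem_range.1 hj; omega)

theorem sum65 (m : ℕ) (a : ℕ → ℕ) : ((List.range m).map a).sum = ∑ j ∈ Finset.range m, a j := by
  induction m with
  | zero => simp
  | succ m ih => rw [List.range_succ, List.map_append, List.sum_append, ih, Finset.sum_range_succ]; simp

theorem degpsh65 {k k' : ℕ} {f : ℕ → ℕ} (hf : BMap k k' f) (a : ℕ → ℕ) :
    deg k' (psh k f a) = deg k a := by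
  unfold deg psh
  rw [Finset.sum_comm]
  refine Finset.sum_congr rfl fun i hi => ?_
  rw [Finset.mem_range] at hi
  rw [Finset.sum_ite_eq, if_pos]
  rw [Finset.mem_range]
  have := hf.le i (by omega)
  omega

/-- **MST** -/
theorem mst (hTrn : TrnStmt) (hGaa : GaaStmt) (hRga : RgaStmt) (hGtn : GtnStmt) (hLni : LniStmt)
    (hGti : GtiStmt) (hSpg : SpgStmt) (hKpg : KpgStmt) (hShf : ShfStmt) (hBmp : BmpStmt)
    (hClr : ClrStmt) (hKpr : KprStmt) (hSpr : SprStmt) (hBel : BelStmt) : MstStmt := by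
  intro r n β hN k i P N κ f0 NB x' y C1 D1 C2 D2 hc hP hNn hNB
  unfold chk at hc
  simp only [Bool.and_eq_true, decide_eq_true_eq] at hc
  obtain ⟨⟨⟨⟨⟨⟨⟨⟨⟨⟨⟨⟨⟨⟨⟨⟨⟨⟨⟨⟨⟨⟨⟨c1, c2⟩, c3⟩, c4⟩, c5⟩, c6⟩, c7⟩, c8⟩, c9⟩, c10⟩, c11⟩, c12⟩, c13⟩,
    c14⟩, c15⟩, c16⟩, c17⟩, c18⟩, c19⟩, c20⟩, c21⟩, c22⟩, c23⟩, c24⟩ := hc
  have hn : 1 ≤ n := pos65 hN.lr
  have hik : i ≤ k := Nat.le_of_ble_eq_true c1
  have hk1 : 1 ≤ ba r κ κ.k := Nat.le_of_ble_eq_true c2
  have hdk : 2 ≤ deg κ.k (ba r κ) := by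
    have := Nat.le_of_ble_eq_true c3
    rw [sum65] at this
    exact this
  obtain ⟨sx, sx2⟩ := vls65 c4
  obtain ⟨sy, sy2⟩ := vls65 c5
  have hf0 : BMap κ.k k (rep f0) := hBmp.2.1 κ.k k f0 c10
  have hj0 : rep f0 (bi r κ) ≤ k := hf0.le _ (bik65 r κ)
  have hps : ∀ j ≤ k, psh κ.k (rep f0) (ba r κ) j ≤ rep x' j := by
    intro j hj
    rw [← hBmp.2.2 κ.k f0 (rep f0) (ba r κ) j (fun _ _ => rfl)]
    rw [List.all_eq_true] at c11
    exact Nat.le_of_ble_eq_true (c11 j (List.mem_range.2 (by omega)))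
  -- closure and no exchange
  have clo : ∀ C : List (List ℕ), clo r k P N C = true → lst k i C = true →
      ∀ c c', shp r k c ∈ C → L1 β k c c' → shp r k c' ∈ C := by
    intro C h1 h2 c c' h3 h4
    exact hClr r n β hN.iso hN.lr k P N C h1 hP hNn c c' (lst65 hShf hik h2 h3).1 h3 h4
  have noe : ∀ C D : List (List ℕ), lst k i C = true → lst k i D = true → bel r k i NB C D = true →
      ∀ c d, TT r k C D c d → ¬ Bt β k c d i := by
    intro C D h1 h2 h3 c d h4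
    exact hBel r n β hN.iso hN.cl hN.lr k i NB C D hik h3 hNB c d (lst65 hShf hik h1 h4.1).1
      (lst65 hShf hik h2 h4.2).1 (lst65 hShf hik h1 h4.1).2 (lst65 hShf hik h2 h4.2).2 h4.1 h4.2
  have hG1 : β ≤ GT k (TT r k C1 D1) := by
    refine hGti β hN.iso hN.cl k i _ (text65 hShf r k C1 D1) (tlast65 hShf hik c21 c22) ?_
      (noe C1 D1 c21 c22 c19)
    intro a b a' b' hT h1 h2
    exact ⟨clo C1 c12 c21 a a' hT.1 h1, clo D1 c13 c22 b b' hT.2 h2⟩
  have hG2 : β ≤ GT k (TT r k C2 D2) := by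
    refine hGti β hN.iso hN.cl k i _ (text65 hShf r k C2 D2) (tlast65 hShf hik c23 c24) ?_
      (noe C2 D2 c23 c24 c20)
    intro a b a' b' hT h1 h2
    exact ⟨clo C2 c14 c23 a a' hT.1 h1, clo D2 c15 c24 b b' hT.2 h2⟩
  have dx : 2 ≤ deg k (rep x') := by
    rw [(hShf r k (rep x')).2.1, sx]; exact sx2
  have dy : 2 ≤ deg k (rep y) := by
    rw [(hShf r k (rep y)).2.1, sy]; exact sy2
  have da : 2 ≤ deg k (ad n (rep x') (rep f0 (bi r κ))) := by
    refine le_trans dx (deg65 ?_)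
    intro j _
    unfold ad
    omega
  have sa : shp r k (ad n (rep x') (rep f0 (bi r κ))) = hv2 r k (rep f0 (bi r κ)) x' := by
    have := (hShf r k (rep x')).2.2.2.2.2.2.1 (rep f0 (bi r κ)) hj0 (2 * n) (by omega)
    rw [sx] at this
    exact this
  -- (5)
  have h5 : Bt (GT k (TT r k C1 D1)) k (ad n (rep x') (rep f0 (bi r κ))) (rep y) i := by
    refine hSpg k i _ (text65 hShf r k C1 D1) (tlast65 hShf hik c21 c22) k _ _ i da dy hik ?_
    intro f c d hf hfi hT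
    exact hSpr r k i _ y C1 D1 c18 hik _ _ c d sa sy hT.1 hT.2 f hf hfi
  -- (6)
  have kcl : ∀ C : List (List ℕ), kap r k κ C = true →
      KCl n k κ.k (bi r κ) (ba r κ) (fun c => shp r k c ∈ C) := by
    intro C hC f hf c hle M hM
    refine hKpr r n k κ C hn hC f hf c ?_ hle M hM
    have h1 : deg k (psh κ.k f (ba r κ)) ≤ deg k c := deg65 hle
    have h2 : deg k (psh κ.k f (ba r κ)) = deg κ.k (ba r κ) := degpsh65 hf _
    omega
  have h6 : L1 (GT k (TT r k C2 D2)) k (rep x') (ad n (rep x') (rep f0 (bi r κ))) := by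
    have h1 : Ab n (FC.ofFIC (GT k (TT r k C2 D2))) κ.k (ba r κ) (bi r κ) :=
      hKpg n k (fun c => shp r k c ∈ C2) (fun d => shp r k d ∈ D2)
        (fun c c' h hc => (hShf r k c).2.2.2.2.1 c' h ▸ hc)
        (fun c c' h hc => (hShf r k c).2.2.2.2.1 c' h ▸ hc) κ.k (bi r κ) (ba r κ) (bik65 r κ) hdk
        hk1 (kcl C2 c16) (kcl D2 c17)
    have h2 := (hTrn n _ κ.k (ba r κ) (bi r κ)).2.2.2 k (rep f0) hf0 (bik65 r κ) h1
    have h3 := (hTrn n _ k _ (rep f0 (bi r κ))).2.1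
      (fun j => rep x' j - psh κ.k (rep f0) (ba r κ) j) h2
    exact ((hTrn n _ k _ (rep f0 (bi r κ))).2.2.1 (rep x') (by
      intro j hj
      have := hps j hj
      show _ + _ = _
      omega)).1 h3
  -- (7)
  have hfin := hLni β hN.iso (hGaa β hN.cl) (hRga β hN.cl) hN.md _ _ hG1 hG2 k _ (rep x') (rep y) i
    da dx dy hik h5 (RR.symm h6)
  have t1 : TT r k C1 D1 (rep x') (rep y) := ⟨by rw [sx]; exact c6, by rw [sy]; exact c7⟩
  have t2 : TT r k C2 D2 (rep x') (rep y) := ⟨by rw [sx]; exact c8, by rw [sy]; exact c9⟩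
  rcases hfin with h | h
  · exact hGtn k i _ (text65 hShf r k C1 D1) (tlast65 hShf hik c21 c22) hik _ _ t1 h
  · exact hGtn k i _ (text65 hShf r k C2 D2) (tlast65 hShf hik c23 c24) hik _ _ t2 h

end Pool.Agent.MWC.H65M
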